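import Pool.Agent.W249.PP.Ari

/-!
# The sum over rough numbers is positive, for all lengths below `T`

Adapted from `Pool/Agent/W249/PP/Ari.lean` (there the length is at most `T^(1/2)`).
-/

set_option autoImplicit false

namespace Pool.Agent.Z72.MG

open Finset Pool.Agent.W192.PP Pool.Agent.W249.PP MeasureTheory

theorem II_pos' {c x : ℝ} (hc0 : 0 < c) (hc : c < 1) (hx : 0 < x) (hx1 : x < 1)
    (h : 1 < c * (1 + x)) : 0 < II c x := by
  unfold II
  have hpi := Real.pi_pos
  refine div_pos ?_ (by positivity)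
  rw [Real.cos_sub_cos]
  have e1 : (Real.pi * c + 2 * Real.pi * c * x + Real.pi * c) / 2 =
      Real.pi * (c * (1 + x) - 1) + Real.pi := by ring
  have e2 : (Real.pi * c + 2 * Real.pi * c * x - Real.pi * c) / 2 = Real.pi * (c * x) := by ring
  rw [e1, e2, Real.sin_add_pi]
  have h1 : 0 < Real.sin (Real.pi * (c * (1 + x) - 1)) := by
    refine Real.sin_pos_of_pos_of_lt_pi (mul_pos hpi (by linarith)) ?_
    have : c * (1 + x) - 1 < 1 := by nlinarith
    calc Real.pi * (c * (1 + x) - 1) < Real.pi * 1 := mul_lt_mul_of_pos_left this hpi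
      _ = Real.pi := mul_one _
  have h2 : 0 < Real.sin (Real.pi * (c * x)) := by
    refine Real.sin_pos_of_pos_of_lt_pi (mul_pos hpi (mul_pos hc0 hx)) ?_
    have : c * x < 1 := by nlinarith
    calc Real.pi * (c * x) < Real.pi * 1 := mul_lt_mul_of_pos_left this hpi
      _ = Real.pi := mul_one _
  nlinarith [mul_pos h1 h2]

open Classical in
theorem ari' : ∀ c x : ℝ, 0 < c → c < 1 → 0 < x → x < 1 → 1 < c * (1 + x) →
  ∃ ε κ T0 : ℝ, 0 < ε ∧ ε < 1 ∧ 0 < κ ∧ ∀ T : ℝ, T0 ≤ T →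
    κ ≤ ∑ l ∈ (Finset.Icc 1 ⌊T ^ x⌋₊).filter (fun l => Rough (T ^ ε) l ∧ Squarefree l),
      (1 / l : ℝ) * (-Real.sin (Real.pi * c + 2 * Real.pi * c * (Real.log l / Real.log T))) := by
  intro c x hc0 hc hx hx1 h
  obtain ⟨C, hC⟩ := Pool.Agent.Helper923.HMertens.mertens_log
  have hC0 : 0 ≤ C := (abs_nonneg _).trans (hC 1 le_rfl)
  have hI := II_pos' hc0 hc hx hx1 h
  set I := II c x with hIdef
  set s := min (1 / 6) (I / 400) with hs
  have hs0 : 0 < s := lt_min (by norm_num) (by linarith)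
  have hs6 : s ≤ 1 / 6 := min_le_left _ _
  have hsI : s ≤ I / 400 := min_le_right _ _
  have hs2 : 0 < s ^ 2 := by positivity
  refine ⟨s ^ 2, I / (20 * s), Real.exp (2 * C / s ^ 2 + 1 / s + 24 / (I * s ^ 2) + 2 / s ^ 2 + 1),
    hs2, by nlinarith, by positivity, fun T hT => ?_⟩
  have hT0 : 0 < T := lt_of_lt_of_le (Real.exp_pos _) hT
  have hL1 : 2 * C / s ^ 2 + 1 / s + 24 / (I * s ^ 2) + 2 / s ^ 2 + 1 ≤ Real.log T := by
    rw [← Real.log_exp (2 * C / s ^ 2 + 1 / s + 24 / (I * s ^ 2) + 2 / s ^ 2 + 1)]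
    exact Real.log_le_log (Real.exp_pos _) hT
  have p1 : 0 ≤ 2 * C / s ^ 2 := by positivity
  have p2 : 0 ≤ 1 / s := by positivity
  have p3 : 0 ≤ 24 / (I * s ^ 2) := by positivity
  have p4 : 0 ≤ 2 / s ^ 2 := by positivity
  have hL0 : 0 < Real.log T := by linarith
  have hT1 : 1 < T := by
    by_contra hcon
    have := Real.log_nonpos hT0.le (not_lt.1 hcon)
    linarith
  have htwo := fun (v : ℝ) (hv : 0 ≤ v) (hv1 : v ≤ 1) =>
    two_sided hC hs0 hs6 hT1 (by linarith) (by linarith) hv hv1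
  obtain ⟨L, hL⟩ : ∃ L, L = Real.log T := ⟨_, rfl⟩
  rw [← hL] at hL0 hL1
  obtain ⟨z, hz⟩ : ∃ z, z = T ^ (s ^ 2) := ⟨_, rfl⟩
  rw [← hL, ← hz] at htwo
  have hzL : s ^ 2 * L ≤ z := by
    rw [hz, Real.rpow_def_of_pos hT0, ← hL]
    have := Real.add_one_le_exp (L * s ^ 2)
    linarith
  have hz2 : 2 ≤ z := by
    have h1 : 2 / s ^ 2 ≤ L := by linarith
    rw [div_le_iff₀ hs2] at h1
    linarith
  have hzI : 24 / I ≤ z := by
    have h1 : 24 / (I * s ^ 2) ≤ L := by linarith
    rw [div_le_iff₀ (by positivity)] at h1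
    rw [div_le_iff₀ hI]
    have h2 : s ^ 2 * L * I ≤ z * I := mul_le_mul_of_nonneg_right hzL hI.le
    linarith
  have hz0 : 0 < z := by linarith
  have hV := VV_one_le (z := z) hT1.le
  obtain ⟨A, hA⟩ : ∃ A, A = L / VV z T := ⟨_, rfl⟩
  rw [← hA] at htwo
  have hA0 : 0 < A := by rw [hA]; exact div_pos hL0 (by linarith)
  have hA1 : 1 / (10 * s) ≤ A := by
    have h1 := (htwo 0 le_rfl zero_le_one).2
    rw [Real.rpow_zero, RR_one, zero_add] at h1
    rw [div_le_iff₀ (by positivity)]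
    linarith
  set b := T ^ x with hb
  have hb1 : 1 ≤ b := Real.one_le_rpow hT1.le hx.le
  have hbx : Real.log b = x * L := by rw [hb, Real.log_rpow hT0, ← hL]
  have hab := abel (c := c) (L := L) (z := z) (b := b) (A := A) (δ := A * (10 * s)) (x := x)
    hc0 hc hL0 hb1 hbx (fun t ht htb => by
      have ht0 : 0 < t := by linarith
      have hv0 : 0 ≤ Real.log t / L := div_nonneg (Real.log_nonneg ht) hL0.le
      have hv1 : Real.log t / L ≤ 1 := by
        rw [div_le_one hL0]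
        have h1 := Real.log_le_log ht0 htb
        rw [hbx] at h1
        nlinarith
      have h2 := htwo _ hv0 hv1
      have h3 : T ^ (Real.log t / L) = t := by
        rw [Real.rpow_def_of_pos hT0, ← hL, mul_div_cancel₀ _ hL0.ne', Real.exp_log ht0]
      rw [h3] at h2
      rw [abs_le]
      have h4 : 0 ≤ A * (10 * s) := by positivity
      constructor
      · linarith [h2.1]
      · linarith [h2.2])
  have hpi := Real.pi_lt_d2
  have hS1 : A * I * (3 / 4) ≤ ∑ l ∈ RS z b, (1 / l : ℝ) * gf c L l := by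
    refine le_trans ?_ hab
    have h1 : 1 + 2 * Real.pi * x ≤ 8 := by nlinarith [Real.pi_pos]
    have h2 : A * (10 * s) * (1 + 2 * Real.pi * x) ≤ A * (10 * s) * 8 :=
      mul_le_mul_of_nonneg_left h1 (by positivity)
    have h3 : A * (10 * s) * 8 ≤ A * (I / 4) := by
      have : 10 * s * 8 ≤ I / 4 := by linarith
      calc A * (10 * s) * 8 = A * (10 * s * 8) := by ring
        _ ≤ A * (I / 4) := mul_le_mul_of_nonneg_left this hA0.le
    linarith
  have hns := nonsqfree (z := z) (X := b) hz2 hb1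
  have hRb : RR z b * (2 / z) ≤ A * I * (1 / 4) := by
    have h1 := (htwo x hx.le (by linarith)).2
    rw [← hb] at h1
    have h2 : A * (x + 10 * s) ≤ A * 3 := mul_le_mul_of_nonneg_left (by linarith) hA0.le
    have h3 : 2 / z ≤ I / 12 := by
      rw [div_le_div_iff₀ hz0 (by norm_num)]
      rw [div_le_iff₀ hI] at hzI
      linarith
    calc RR z b * (2 / z) ≤ (A * 3) * (I / 12) :=
          mul_le_mul (h1.trans h2) h3 (by positivity) (by positivity)
      _ = A * I * (1 / 4) := by ring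
  have hfin : ∑ l ∈ RS z b, (1 / l : ℝ) * gf c L l - ∑ l ∈ (RS z b).filter (fun l => ¬ Squarefree l),
      (1 / l : ℝ) ≤ ∑ l ∈ (RS z b).filter (fun l => Squarefree l), (1 / l : ℝ) * gf c L l := by
    rw [← sum_filter_add_sum_filter_not (RS z b) (fun l => Squarefree l)]
    have h1 : ∑ l ∈ (RS z b).filter (fun l => ¬ Squarefree l), (1 / l : ℝ) * gf c L l ≤
        ∑ l ∈ (RS z b).filter (fun l => ¬ Squarefree l), (1 / l : ℝ) := by
      refine sum_le_sum fun l _ => ?_
      have h2 := (abs_le.1 (gf_bound c L l)).2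
      have h3 : (0 : ℝ) ≤ 1 / l := by positivity
      nlinarith
    linarith
  have hgoal : ∑ l ∈ (Finset.Icc 1 ⌊b⌋₊).filter (fun l => Rough (T ^ (s ^ 2)) l ∧ Squarefree l),
      (1 / l : ℝ) * (-Real.sin (Real.pi * c + 2 * Real.pi * c * (Real.log l / Real.log T))) =
      ∑ l ∈ (RS z b).filter (fun l => Squarefree l), (1 / l : ℝ) * gf c L l := by
    rw [hz, hL]
    unfold RS gf
    rw [filter_filter]
  rw [hgoal]
  have h20 : I / (20 * s) ≤ A * I * (1 / 2) := by
    have h1 : I / (20 * s) = 1 / (10 * s) * I * (1 / 2) := by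
      field_simp
      norm_num
    rw [h1]
    exact mul_le_mul_of_nonneg_right (mul_le_mul_of_nonneg_right hA1 hI.le) (by norm_num)
  linarith

end Pool.Agent.Z72.MG
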