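import Pool.Agent.Z72.MG.Cut
import Pool.Agent.Z72.MG.Ari
import Pool.Agent.TH299.PG.FinP

/-!
# Many bad zeros

Adapted from `Pool/Agent/TH299/PG/FinP.lean`: the detector is the Möbius function on numbers without small prime factors,
of length `T^x`, `c (1 + x) > 1`, and uniform integrability is replaced by Huxley's large value theorem.
-/

open Complex Filter Topology Set MeasureTheory

namespace Pool.Agent.Z72.MG

open SG (phi hh dl phi_norm)
open SP hiding GG
open SP.EvalAux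
open Pool.Agent.W192.PP hiding upper_v FF FF_diff ss ss_cont pdt pdt_cont pdt_norm ss_lower gauss_main shift_main tail_bound pp_bound dps_right be G1 G2 G2_bound sta_FF dp_left dp_line
open Pool.Agent.W612.PP
open Pool.Agent.W192.SI (Adm dd)
open Pool.Agent.TH299.PG (ee GG_sum ee_le secP upper_v low2 la2 dat_ev2 final_alg2 FF FF_diff)

theorem R1_le_GG (z δ : ℝ) (n : ℕ) : R1 z n ≤ GG z δ n := by
  rcases Nat.eq_zero_or_pos n with h | h
  · subst h
    simp
  refine le_trans ?_ (Pool.Agent.TH299.PG.RF_le_GG z δ n)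
  rw [ArithmeticFunction.mul_apply]
  have hmem : (n, 1) ∈ n.divisorsAntidiagonal := by
    rw [Nat.mem_divisorsAntidiagonal]
    exact ⟨mul_one n, h.ne'⟩
  refine le_trans ?_ (Finset.single_le_sum
    (f := fun x : ℕ × ℕ => R1 z x.1 * FM δ x.2)
    (fun x _ => mul_nonneg (R1_nonneg _ _) (FM_nonneg _ _)) hmem)
  simp only
  rw [(FM_mult δ).1, mul_one]

theorem DP_eq_QP (N : ℕ) (d : ℕ → ℂ) (t : ℝ) : SP.DP N d (⟨1 / 2, t⟩ : ℂ) = QP (Finset.Icc 1 N) d t := rfl

theorem sq_le_pp (V x : ℝ) : x ^ 2 ≤ V ^ 2 + pp V x := by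
  have := le_max_right 0 (x ^ 2 - V ^ 2)
  unfold pp
  linarith

/-- many bad zeros in every interval of length `T^θ` -/
theorem many_bad3 (c x y θ : ℝ) (hc : 0 < c) (hc1 : c < 1) (hx : 0 < x) (hxθ : x < θ) (hθ1 : θ < 1)
    (hxc : 1 < c * (1 + x)) (hxy : x < y) :
    ∃ T0 : ℝ, ∀ T : ℝ, T0 ≤ T → ∀ W : ℝ, T ≤ W → W + T ^ θ ≤ 2 * T →
      ∃ S : Multiset ℂ, (∀ z ∈ S, W + dl c T ≤ (z + hh (dl c T)).im ∧
        (z + hh (dl c T)).im ≤ W + T ^ θ ∧ 0 < (z + hh (dl c T)).re ∧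
        (z + hh (dl c T)).re < 1 ∧
        riemannZeta (z + hh (dl c T)) = 0 ∧ BadZ (dl c T) (z + hh (dl c T))) ∧
      (∀ z, S.count z ≤ H370.mult riemannZeta (z + hh (dl c T))) ∧
      T ^ (θ - y / 2) ≤ Multiset.card S := by
  classical
  have hpi := Real.pi_pos
  -- the parameter η
  obtain ⟨η, hη0, hη1, hηθ, hηy⟩ : ∃ η : ℝ, 0 < η ∧ η ≤ 1 ∧ x + 2 * η < θ ∧ x + 2 * η < y := by
    refine ⟨min ((θ - x) / 4) ((y - x) / 4), lt_min (by linarith) (by linarith), ?_, ?_, ?_⟩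
    · exact (min_le_left _ _).trans (by linarith)
    · have := min_le_left ((θ - x) / 4) ((y - x) / 4)
      linarith
    · have := min_le_right ((θ - x) / 4) ((y - x) / 4)
      linarith
  have hx1 : x < 1 := by linarith
  obtain ⟨ε, κ, Ta, hε, hε1, hκ, hari⟩ := ari' c x hc hc1 hx hx1 hxc
  obtain ⟨C2, Tb, hC2, hsec⟩ := secP c ε hc hε
  obtain ⟨C3, Tg, hC3, hGG⟩ := GG_sum c ε hc hε
  obtain ⟨Ch, Tc, hCh, hhor⟩ := Pool.Agent.W578.PPHor.t_hor c hc hc1
  obtain ⟨Td, hup⟩ := upper_v c Ch hc hc1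
  obtain ⟨Cr, Tr, hCr, hTr, hrho⟩ := SP.rho_bound c hc hc1
  have hCr0 : 0 < Cr := by linarith
  obtain ⟨Te, hbd⟩ := low2 c κ (60 * C3) C2 hc hc1 hκ (by positivity) hC2
  obtain ⟨Tf, hdat⟩ := dat_ev2 x η θ κ hx hη0 hη1 (by linarith) hθ1 hηθ hκ
  obtain ⟨Th, hcut⟩ := cut_ev (x + 2 * η) y θ (max 1 C3) (κ / (48 * Cr)) (by linarith) (by linarith) hηy hηθ
    (le_max_left _ _) (by positivity)
  obtain ⟨Tl, hTl⟩ := eventually_atTop.mp
    (Real.tendsto_log_atTop.eventually_ge_atTop (48 * Real.pi * Cr / (κ * η)))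
  refine ⟨max (max (max (max Ta Tb) (max Tc Td)) (max (max Te Tf) Tr)) (max (max Tg Th) Tl), ?_⟩
  intro T hT W hW1 hW2
  have hT' : max (max (max Ta Tb) (max Tc Td)) (max (max Te Tf) Tr) ≤ T := (le_max_left _ _).trans hT
  have hT'' : max (max Tg Th) Tl ≤ T := (le_max_right _ _).trans hT
  have hTa : Ta ≤ T := (le_max_left _ _).trans ((le_max_left _ _).trans ((le_max_left _ _).trans hT'))
  have hTb : Tb ≤ T := (le_max_right _ _).trans ((le_max_left _ _).trans ((le_max_left _ _).trans hT'))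
  have hTc : Tc ≤ T := (le_max_left _ _).trans ((le_max_right _ _).trans ((le_max_left _ _).trans hT'))
  have hTd : Td ≤ T := (le_max_right _ _).trans ((le_max_right _ _).trans ((le_max_left _ _).trans hT'))
  have hTe : Te ≤ T := (le_max_left _ _).trans ((le_max_left _ _).trans ((le_max_right _ _).trans hT'))
  have hTf : Tf ≤ T := (le_max_right _ _).trans ((le_max_left _ _).trans ((le_max_right _ _).trans hT'))
  have hTr' : Tr ≤ T := (le_max_right _ _).trans ((le_max_right _ _).trans hT')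
  have hTg : Tg ≤ T := (le_max_left _ _).trans ((le_max_left _ _).trans hT'')
  have hTh : Th ≤ T := (le_max_right _ _).trans ((le_max_left _ _).trans hT'')
  have hTlog := hTl T ((le_max_right _ _).trans hT'')
  obtain ⟨hD, hNN, hbig, hN'H, hκD, hJlow⟩ := hdat T hTf W hW1 hW2
  set H := T ^ θ with hH
  set N := ⌊T ^ x⌋₊ with hN
  set N' := ⌊T ^ (x + 2 * η)⌋₊ with hN'
  set J := ⌊η * Real.log T * H / (2 * Real.pi)⌋₊ with hJ
  have hA := hD.adm
  have hHpos := hA.H_pos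
  have hHge := hA.H_ge
  norm_num at hHge
  have hHT := hA.hi
  have hTge := hA.T_ge'
  have hT1 : 1 < T := by linarith
  have hTpos : 0 < T := by linarith
  have hdl0 : 0 < dl c T := hA.dl_pos hc
  have hdl1 : dl c T ≤ 1 := by linarith [hA.dl_le (by linarith : c < 2)]
  have hL := hA.log_ge
  have hdd0 := hA.dd_pos
  set d : ℕ → ℂ := d0 c ε T with hd
  have hdle : ∀ n, ‖d n‖ ≤ 1 := Pool.Agent.W192.PP.d0_le c ε T
  have hdR : ∀ n, ‖d n‖ ≤ R1 (T ^ ε) n := Pool.Agent.W612.PP.d0_le c ε T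
  -- heights
  obtain ⟨U1, hU1a, hU1b, hU1⟩ := hhor T hTc (W + 1) (by linarith) (by linarith)
  obtain ⟨U2, hU2a, hU2b, hU2⟩ := hhor T hTc (W + H - 2) (by linarith) (by linarith)
  -- residues
  obtain ⟨S, hS1, hS2, hS3⟩ := Pool.Agent.W338.PP.t_res c T U1 U2 hdl0 hdl1 (by linarith)
    (by linarith) (fun σ h1 h2 => ⟨(hU1 σ h1 h2).1, (hU2 σ h1 h2).1⟩)
  refine ⟨S, ?_, hS2, ?_⟩
  · intro z hz
    obtain ⟨h1, h2, h3, h4, h5, h6⟩ := hS1 z hz
    have him : (z + hh (dl c T)).im = z.im + dl c T / 2 := by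
      rw [Complex.add_im]
      simp [hh]
    rw [him]
    exact ⟨by linarith, by linarith, h3, h4, h5, h6⟩
  -- linear conditions
  obtain ⟨Φ, hΦ⟩ := Pool.Agent.W240.PPDiv.t_div J (fun v => FF H T d N v)
    (fun v => FF_diff H T d N v) (by
      intro a v w s
      simp only [FF, gv_lin]
      ring) S
  have hbe : κ ≤ (cexp (-(Real.pi * c : ℝ) * I) * Pool.Agent.TH299.PG.be c T d N).im := by
    have e1 : Pool.Agent.TH299.PG.be c T d N = Pool.Agent.W192.PP.be c ε T N := by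
      unfold Pool.Agent.TH299.PG.be Pool.Agent.W192.PP.be Pool.Agent.TH299.PG.ee
      refine Finset.sum_congr rfl fun l _ => ?_
      rw [e0_eq]
    rw [e1, be_im]
    convert hari T hTa
  have hsecP := hsec T hTb H W d N N' hdR (by linarith) hHT hN'H
  have hPc := DP_half_cont N' (ee c T d N)
  have hDc := DP_half_cont N d
  -- the coefficients
  have hsumD : ∀ X : ℕ, (X : ℝ) ≤ T → ∑ n ∈ Finset.Icc 1 X, ‖d n‖ ^ 2 / n ≤ C3 := by
    intro X hX
    refine le_trans (Finset.sum_le_sum fun n _ => ?_) (hGG T hTg X hX)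
    apply div_le_div_of_nonneg_right _ (Nat.cast_nonneg n)
    exact pow_le_pow_left₀ (norm_nonneg _) ((hdR n).trans (R1_le_GG _ _ n)) 2
  have hsumP : ∀ X : ℕ, (X : ℝ) ≤ T → ∑ n ∈ Finset.Icc 1 X, ‖ee c T d N n‖ ^ 2 / n ≤ C3 := by
    intro X hX
    refine le_trans (Finset.sum_le_sum fun n _ => ?_) (hGG T hTg X hX)
    exact div_le_div_of_nonneg_right
      (pow_le_pow_left₀ (norm_nonneg _) (ee_le c T (T ^ ε) d hdR N n) 2) (Nat.cast_nonneg n)
  have hNH : (N : ℝ) ≤ H := le_trans (by exact_mod_cast hNN) hN'H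
  have hsecD : ∫ t in W..(W + H), ‖SP.DP N d (⟨1 / 2, t⟩ : ℂ)‖ ^ 2 ≤ 60 * C3 * H := by
    have h1 := mv_int d N H W (by linarith) hNH
    have h2 := hsumD N (hNH.trans hHT)
    calc _ ≤ 60 * H * ∑ n ∈ Finset.Icc 1 N, ‖d n‖ ^ 2 / n := h1
      _ ≤ 60 * H * C3 := mul_le_mul_of_nonneg_left h2 (by linarith)
      _ = 60 * C3 * H := by ring
  obtain ⟨b1, b3⟩ := hbd x η H T W d hdle N N' J hTe (by
      refine le_trans ?_ hκD
      apply div_le_div_of_nonneg_right (by norm_num) hκ.le) hD hNN hbig hbe hsecP hsecD U1 U2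
    (by linarith) (by linarith) (by linarith) (by linarith)
  set D := dd H T with hDdef
  -- lengths
  have hxN : 1 ≤ T ^ x := Real.one_le_rpow hT1.le hx.le
  have hxN' : 1 ≤ T ^ (x + 2 * η) := Real.one_le_rpow hT1.le (by linarith)
  have hN1 : 1 ≤ N := by
    rw [hN]
    exact Nat.le_floor (by exact_mod_cast hxN)
  have hN'1 : 1 ≤ N' := hN1.trans hNN
  have hN'le : (N' : ℝ) ≤ T ^ (x + 2 * η) := Nat.floor_le (by linarith)
  have hNle : (N : ℝ) ≤ T ^ (x + 2 * η) := le_trans (by exact_mod_cast hNN) hN'le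
  set V := T ^ (y / 4) with hV
  have hV0 : 0 < V := Real.rpow_pos_of_pos hTpos _
  have cutD := hcut T hTh d N W hN1 hNle ((hsumD N (hNH.trans hHT)).trans (le_max_right _ _))
  have cutP := hcut T hTh (ee c T d N) N' W hN'1 hN'le ((hsumP N' (hN'H.trans hHT)).trans (le_max_right _ _))
  rw [← hH, ← hV] at cutD cutP
  have hppD : Continuous fun t => pp V ‖SP.DP N d (⟨1 / 2, t⟩ : ℂ)‖ := pp_cont V hDc.norm
  have hppP : Continuous fun t => pp V ‖SP.DP N' (ee c T d N) (⟨1 / 2, t⟩ : ℂ)‖ := pp_cont V hPc.norm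
  set f : ℝ → ℝ := fun t => wW D (W + H / 4) (W + 3 * H / 4) t * Pool.Agent.TH299.PG.ss c T d N N' t with hf
  have hU12 : U1 ≤ U2 := by linarith
  have hfc : ContinuousOn f (Icc U1 U2) := (wW_cont _ _ _).continuousOn.mul b3
  set g : ℝ → ℝ := fun t => 3 * D * Cr * (pp V ‖SP.DP N' (ee c T d N) (⟨1 / 2, t⟩ : ℂ)‖ +
    pp V ‖SP.DP N d (⟨1 / 2, t⟩ : ℂ)‖) with hg
  have hgc : Continuous g := continuous_const.mul (hppP.add hppD)
  have hg0 : ∀ t, 0 ≤ g t := by
    intro t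
    have h1 := pp_nonneg V ‖SP.DP N' (ee c T d N) (⟨1 / 2, t⟩ : ℂ)‖
    have h2 := pp_nonneg V ‖SP.DP N d (⟨1 / 2, t⟩ : ℂ)‖
    simp only [hg]
    positivity
  have hfg : ∀ t ∈ Icc U1 U2, f t ≤ (3 * Cr * V ^ 2) * D + g t := by
    intro t ht
    have h1 : |Pool.Agent.TH299.PG.ss c T d N N' t| ≤ Cr * ‖Pool.Agent.TH299.PG.pdt c T d N N' t‖ := by
      unfold Pool.Agent.TH299.PG.ss
      refine (Complex.abs_im_le_norm _).trans ?_
      rw [norm_mul]
      apply mul_le_mul_of_nonneg_right _ (norm_nonneg _)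
      exact (hrho T hTr' _ (by simp only; linarith [ht.1]) (by simp only; linarith [ht.2]) (by
        simp only
        rw [abs_of_pos (by norm_num)]; linarith)).2
    have h2 : f t ≤ 3 * D * (Cr * ‖Pool.Agent.TH299.PG.pdt c T d N N' t‖) := by
      simp only [hf]
      have hw0 := wW_nonneg (D := D) (by linarith : W + H / 4 ≤ W + 3 * H / 4) t
      have hw3 := wW_le (D := D) hdd0 (by linarith : W + H / 4 ≤ W + 3 * H / 4) t
      calc _ ≤ wW D (W + H / 4) (W + 3 * H / 4) t * |Pool.Agent.TH299.PG.ss c T d N N' t| :=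
            mul_le_mul_of_nonneg_left (le_abs_self _) hw0
        _ ≤ _ := mul_le_mul hw3 h1 (abs_nonneg _) (by positivity)
    refine h2.trans ?_
    rw [Pool.Agent.TH299.PG.pdt_norm]
    simp only [hg]
    set p := ‖SP.DP N' (ee c T d N) (⟨1 / 2, t⟩ : ℂ)‖ with hp
    set q := ‖SP.DP N d (⟨1 / 2, t⟩ : ℂ)‖ with hq
    have h3 := sq_le_pp V p
    have h4 := sq_le_pp V q
    have h5 := pp_nonneg V p
    have h6 := pp_nonneg V q
    have h7 : p * q ≤ V ^ 2 + (pp V p + pp V q) := by nlinarith [sq_nonneg (p - q)]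
    calc 3 * D * (Cr * (p * q)) ≤ 3 * D * (Cr * (V ^ 2 + (pp V p + pp V q))) :=
          mul_le_mul_of_nonneg_left (mul_le_mul_of_nonneg_left h7 hCr0.le) (by positivity)
      _ = _ := by ring
  have hla := la2 J (Multiset.card S) H U1 U2 H ((3 * Cr * V ^ 2) * D) Φ f g hHpos hU12 (by linarith)
    hfc hgc.continuousOn hHpos.le (by positivity) hfg (fun t _ => hg0 t) (by
    intro v hv
    obtain ⟨F1, hF1, hF2⟩ := hΦ v hv
    have hg : ∀ t : ℝ, (∑ j : Fin J, v j * cexp (-(I * ((2 * Real.pi * j / H * t : ℝ) : ℂ)))) =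
        gv H v (⟨1 / 2, t⟩ : ℂ) := fun t => (gv_half H v t).symm
    simp only [hg]
    have hq : ContinuousOn (fun t : ℝ => Pool.Agent.TH299.PG.ss c T d N N' t * ‖gv H v (⟨1 / 2, t⟩ : ℂ)‖ ^ 2)
        (Icc U1 U2) := by
      apply b3.mul
      apply Continuous.continuousOn
      exact (((gv_diff H v).continuous.comp (mk_cont' (1 / 2))).norm).pow 2
    have h1 := swap_upper (D := D) (m := 2 * ∑ j, ‖v j‖ ^ 2)
      (by linarith : W + H / 4 ≤ W + 3 * H / 4) hU12 _ hq (by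
        intro τ hτ
        exact hup x η H T W d hdle N N' J hTd hD U1 U2 (by linarith) (by linarith)
          (by linarith) (by linarith) (fun σ h1 h2 => ⟨(hU1 σ h1 h2).2, (hU2 σ h1 h2).2⟩) S hS3 v
          F1 hF1 hF2 τ hτ.1 hτ.2)
    calc ∫ t in U1..U2, f t * ‖gv H v (⟨1 / 2, t⟩ : ℂ)‖ ^ 2 =
          ∫ t in U1..U2, wW D (W + H / 4) (W + 3 * H / 4) t *
            (Pool.Agent.TH299.PG.ss c T d N N' t * ‖gv H v (⟨1 / 2, t⟩ : ℂ)‖ ^ 2) := by
            apply intervalIntegral.integral_congr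
            intro t _
            simp only [hf]
            ring
      _ ≤ (W + 3 * H / 4 - (W + H / 4)) * (2 * ∑ j, ‖v j‖ ^ 2) := h1
      _ = H * ∑ j, ‖v j‖ ^ 2 := by ring)
  have hG : ∫ t in U1..U2, g t ≤ κ / 8 * D * H := by
    have h1 : ∫ t in U1..U2, g t ≤ ∫ t in W..(W + H), g t := by
      apply intervalIntegral.integral_mono_interval (by linarith) hU12 (by linarith)
      · exact Eventually.of_forall hg0
      · exact hgc.intervalIntegrable _ _
    refine h1.trans ?_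
    simp only [hg]
    rw [intervalIntegral.integral_const_mul, intervalIntegral.integral_add
      (hppP.intervalIntegrable _ _) (hppD.intervalIntegrable _ _)]
    have h2 : ∫ t in W..(W + H), pp V ‖SP.DP N' (ee c T d N) (⟨1 / 2, t⟩ : ℂ)‖ ≤ κ / (48 * Cr) * H := cutP
    have h3 : ∫ t in W..(W + H), pp V ‖SP.DP N d (⟨1 / 2, t⟩ : ℂ)‖ ≤ κ / (48 * Cr) * H := cutD
    calc _ ≤ 3 * D * Cr * (κ / (48 * Cr) * H + κ / (48 * Cr) * H) :=
          mul_le_mul_of_nonneg_left (add_le_add h2 h3) (by positivity)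
      _ = κ / 8 * D * H := by
          field_simp
          ring
  have hJ0 : (0 : ℝ) < J := by
    have : 0 < η * Real.log T * H / (4 * Real.pi) := by
      positivity
    linarith
  have hM30 : 0 < 3 * Cr * V ^ 2 := by positivity
  have hfin := final_alg2 (K := (Multiset.card S : ℝ)) hJ0 hκ hdd0 hHpos hM30 hκD hG
    (by
      refine (mul_le_mul_of_nonneg_left b1 hJ0.le).trans ?_
      exact hla)
  refine le_trans ?_ hfin
  have hV2 : V ^ 2 = T ^ (y / 2) := by
    rw [hV, ← Real.rpow_natCast, ← Real.rpow_mul hTpos.le]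
    congr 1
    push_cast
    ring
  rw [hV2, Real.rpow_sub hTpos]
  have hTy : 0 < T ^ (y / 2) := Real.rpow_pos_of_pos hTpos _
  calc T ^ θ / T ^ (y / 2) = 1 * H / T ^ (y / 2) := by rw [one_mul]
    _ ≤ (κ * η / (48 * Real.pi * Cr) * Real.log T) * H / T ^ (y / 2) := by
        apply div_le_div_of_nonneg_right _ hTy.le
        apply mul_le_mul_of_nonneg_right _ hHpos.le
        rw [div_le_iff₀ (by positivity)] at hTlog
        rw [div_mul_eq_mul_div, le_div_iff₀ (by positivity)]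
        linarith
    _ = κ / (4 * (3 * Cr * T ^ (y / 2))) * (η * Real.log T * H / (4 * Real.pi)) := by
        field_simp
        ring
    _ ≤ κ / (4 * (3 * Cr * T ^ (y / 2))) * J := mul_le_mul_of_nonneg_left hJlow (by positivity)

end Pool.Agent.Z72.MG
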