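import Pool.Agent.Z72.MG.Hux
import Pool.Agent.W192.PP.Shift

/-!
# The part of the mean square above a given level: integrals
-/

set_option autoImplicit false

namespace Pool.Agent.Z72.MG

open Finset Pool.Agent.Q240.KS MeasureTheory
open Pool.Agent.H376R2.MR (ch FK)

/-- the polynomial on the critical line -/
noncomputable def QP (s : Finset ℕ) (q : ℕ → ℂ) (t : ℝ) : ℂ :=
  ∑ n ∈ s, q n * (n : ℂ) ^ (-(⟨1 / 2, t⟩ : ℂ))

theorem QP_cont (s : Finset ℕ) (q : ℕ → ℂ) (hs : ∀ n ∈ s, 1 ≤ n) : Continuous (QP s q) := by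
  unfold QP
  refine continuous_finsetSum _ fun n hn => ?_
  have hn0 : (n : ℂ) ≠ 0 := by
    have := hs n hn
    exact_mod_cast (by omega : n ≠ 0)
  refine continuous_const.mul ?_
  refine Continuous.const_cpow ?_ (Or.inl hn0)
  exact (Pool.Agent.W192.PP.mk_cont' (1 / 2)).neg

theorem pp_cont (V : ℝ) {f : ℝ → ℝ} (hf : Continuous f) : Continuous fun t => pp V (f t) := by
  unfold pp
  exact continuous_const.max ((hf.pow 2).sub continuous_const)

/-- the coefficients at the frequencies `u + k` -/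
noncomputable def aq (q : ℕ → ℂ) (u : ℝ) (n : ℕ) : ℂ := q n * (n : ℂ) ^ (-(⟨1 / 2, u⟩ : ℂ))

theorem norm_aq (q : ℕ → ℂ) (u : ℝ) {n : ℕ} (hn : 1 ≤ n) : (n : ℝ) * ‖aq q u n‖ ^ 2 = ‖q n‖ ^ 2 := by
  have hn0 : (0 : ℝ) < n := by exact_mod_cast hn
  unfold aq
  rw [norm_mul, Complex.norm_natCast_cpow_of_pos hn, mul_pow]
  have h1 : (-(⟨1 / 2, u⟩ : ℂ)).re = -(1 / 2) := by simp
  rw [h1, ← Real.rpow_natCast ((n : ℝ) ^ (-(1 / 2) : ℝ)) 2, ← Real.rpow_mul hn0.le]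
  have h2 : (-(1 / 2) : ℝ) * ((2 : ℕ) : ℝ) = -1 := by norm_num
  rw [h2, Real.rpow_neg_one]
  field_simp

theorem QP_shift (s : Finset ℕ) (q : ℕ → ℂ) (hs : ∀ n ∈ s, 1 ≤ n) (u : ℝ) (k : ℤ) :
    QP s q (u + k) = Pool.Agent.H376R2.MR.DP s (aq q u) k := by
  unfold QP Pool.Agent.H376R2.MR.DP aq
  refine sum_congr rfl fun n hn => ?_
  have hn1 := hs n hn
  have hn0 : (n : ℂ) ≠ 0 := by exact_mod_cast (by omega : n ≠ 0)
  rw [mul_assoc]
  congr 1
  unfold ch
  rw [Complex.cpow_def_of_ne_zero hn0, Complex.cpow_def_of_ne_zero hn0, ← Complex.natCast_log,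
    ← Complex.exp_add]
  congr 1
  have e1 : (⟨1 / 2, u + k⟩ : ℂ) = ⟨1 / 2, u⟩ + k * Complex.I := by
    apply Complex.ext <;> simp
  rw [e1]
  push_cast
  ring

/-- one block -/
theorem block : ∃ C : ℝ, 1 ≤ C ∧ ∀ (s : Finset ℕ) (q : ℕ → ℂ) (N : ℝ) (I : ℕ) (V H W : ℝ), 1 ≤ N →
    (∀ n ∈ s, 1 ≤ n ∧ |Real.log n - Real.log N| ≤ 2) → 1 ≤ H → 0 < V →
    (∀ t : ℝ, ‖QP s q t‖ < 2 ^ I * V) →
    ∫ t in W..(W + H), pp V ‖QP s q t‖ ≤ C * (1 + Real.log N) ^ 2 *
      (I * (∑ n ∈ s, ‖q n‖ ^ 2) + 2 * ((H + 3) * (∑ n ∈ s, ‖q n‖ ^ 2) ^ 3 / (N ^ 2 * V ^ 4))) := by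
  obtain ⟨C, hC, h⟩ := disc
  refine ⟨C, hC, fun s q N I V H W hN hs hH hV hI => ?_⟩
  set G := ∑ n ∈ s, ‖q n‖ ^ 2 with hG
  have hG0 : 0 ≤ G := by rw [hG]; positivity
  set m : ℤ := ⌊W⌋ with hm
  set n : ℕ := ⌈H⌉₊ + 1 with hn
  have hs1 : ∀ n ∈ s, 1 ≤ n := fun n hn => (hs n hn).1
  have hcont : Continuous (fun t => pp V ‖QP s q t‖) := pp_cont V (QP_cont s q hs1).norm
  have hm1 : (m : ℝ) ≤ W := Int.floor_le W
  have hm2 : W < m + 1 := Int.lt_floor_add_one W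
  have hceil : H ≤ ⌈H⌉₊ := Nat.le_ceil H
  have hceil2 : (⌈H⌉₊ : ℝ) < H + 1 := Nat.ceil_lt_add_one (by linarith)
  have hn1 : (n : ℝ) = ⌈H⌉₊ + 1 := by rw [hn]; push_cast; ring
  have h1 : ∫ t in W..(W + H), pp V ‖QP s q t‖ ≤ ∫ t in (m : ℝ)..(m + n : ℝ), pp V ‖QP s q t‖ := by
    apply intervalIntegral.integral_mono_interval hm1 (by linarith) (by rw [hn1]; linarith)
    · exact Filter.Eventually.of_forall fun t => pp_nonneg _ _
    · exact hcont.intervalIntegrable _ _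
  have h2 : ∫ t in (m : ℝ)..(m + n : ℝ), pp V ‖QP s q t‖ =
      ∑ i ∈ range n, ∫ t in (m + i : ℝ)..(m + (i + 1 : ℕ) : ℝ), pp V ‖QP s q t‖ := by
    have := intervalIntegral.sum_integral_adjacent_intervals (μ := volume) (f := fun t => pp V ‖QP s q t‖)
      (a := fun i : ℕ => (m + i : ℝ)) (n := n) (fun k _ => hcont.intervalIntegrable _ _)
    rw [this]
    simp
  have h3 : ∀ i ∈ range n, ∫ t in (m + i : ℝ)..(m + (i + 1 : ℕ) : ℝ), pp V ‖QP s q t‖ =
      ∫ u in (0 : ℝ)..1, pp V ‖QP s q ((m + u : ℝ) + (i : ℤ))‖ := by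
    intro i _
    have := intervalIntegral.integral_comp_add_left (a := 0) (b := 1) (fun t => pp V ‖QP s q t‖) (m + i : ℝ)
    have e1 : (m : ℝ) + i + 0 = m + i := by ring
    have e2 : (m : ℝ) + i + 1 = m + (i + 1 : ℕ) := by push_cast; ring
    rw [e1, e2] at this
    rw [← this]
    apply intervalIntegral.integral_congr
    intro u _
    simp only
    congr 3
    push_cast
    ring
  rw [h2, sum_congr rfl h3, ← intervalIntegral.integral_finsetSum] at h1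
  swap
  · intro i _
    apply Continuous.intervalIntegrable
    exact hcont.comp (by fun_prop)
  refine h1.trans ?_
  have hB : ∀ u : ℝ, ∑ i ∈ range n, pp V ‖QP s q ((m + u : ℝ) + (i : ℤ))‖ ≤
      C * (1 + Real.log N) ^ 2 * (I * G + 2 * ((H + 3) * G ^ 3 / (N ^ 2 * V ^ 4))) := by
    intro u
    have h4 := h s (aq q (m + u)) N (⌈H⌉₊ + 2) I V hN hs (by omega) hV (by
      intro k _
      rw [← QP_shift s q hs1]
      exact hI _)
    have e3 : ∑ n ∈ s, (n : ℝ) * ‖aq q (m + u) n‖ ^ 2 = G := by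
      rw [hG]
      exact sum_congr rfl fun n hn => norm_aq q _ (hs1 n hn)
    rw [e3] at h4
    have h5 : ∑ i ∈ range n, pp V ‖QP s q ((m + u : ℝ) + (i : ℤ))‖ ≤
        ∑ k ∈ FK (⌈H⌉₊ + 2), pp V ‖Pool.Agent.H376R2.MR.DP s (aq q (m + u)) k‖ := by
      have e4 : ∑ i ∈ range n, pp V ‖QP s q ((m + u : ℝ) + (i : ℤ))‖ =
          ∑ k ∈ (range n).map ⟨fun i : ℕ => (i : ℤ), Nat.cast_injective⟩,
            pp V ‖Pool.Agent.H376R2.MR.DP s (aq q (m + u)) k‖ := by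
        rw [sum_map]
        refine sum_congr rfl fun i _ => ?_
        rw [QP_shift s q hs1]
        rfl
      rw [e4]
      apply sum_le_sum_of_subset_of_nonneg
      · intro k hk
        rw [mem_map] at hk
        obtain ⟨i, hi, rfl⟩ := hk
        rw [mem_range] at hi
        unfold FK
        rw [mem_Ioo]
        simp only [Function.Embedding.coeFn_mk]
        constructor
        · push_cast
          omega
        · push_cast
          omega
      · intro k _ _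
        exact pp_nonneg _ _
    refine h5.trans (h4.trans ?_)
    apply mul_le_mul_of_nonneg_left _ (by
      have := Real.log_nonneg hN
      positivity)
    have e5 : (((⌈H⌉₊ + 2 : ℕ)) : ℝ) ≤ H + 3 := by push_cast; linarith
    have h6 : (((⌈H⌉₊ + 2 : ℕ)) : ℝ) * G ^ 3 / (N ^ 2 * V ^ 4) ≤ (H + 3) * G ^ 3 / (N ^ 2 * V ^ 4) := by
      gcongr
    linarith
  calc ∫ u in (0 : ℝ)..1, ∑ i ∈ range n, pp V ‖QP s q ((m + u : ℝ) + (i : ℤ))‖
      ≤ ∫ _u in (0 : ℝ)..1, C * (1 + Real.log N) ^ 2 * (I * G + 2 * ((H + 3) * G ^ 3 / (N ^ 2 * V ^ 4))) := by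
        apply intervalIntegral.integral_mono_on zero_le_one
        · apply Continuous.intervalIntegrable
          refine continuous_finsetSum _ fun i _ => ?_
          exact hcont.comp (by fun_prop)
        · simp
        · intro u _
          exact hB u
    _ = _ := by simp

end Pool.Agent.Z72.MG
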