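import Pool.Agent.Z72.MG.Blk
import Pool.Agent.W192.PP.Fin

/-!
# The part of the mean square above a given level: polynomials of any length
-/

set_option autoImplicit false

namespace Pool.Agent.Z72.MG

open Finset MeasureTheory Filter

theorem pp_sum (V : ℝ) (R : ℕ) (hR : 1 ≤ R) (z : ℕ → ℂ) :
    pp V ‖∑ j ∈ range R, z j‖ ≤ R * ∑ j ∈ range R, pp (V / R) ‖z j‖ := by
  have hR0 : (0 : ℝ) < R := by exact_mod_cast hR
  unfold pp
  apply max_le
  · apply mul_nonneg hR0.le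
    exact sum_nonneg fun j _ => le_max_left _ _
  · have h1 : ‖∑ j ∈ range R, z j‖ ^ 2 ≤ R * ∑ j ∈ range R, ‖z j‖ ^ 2 := by
      have h2 := pow_le_pow_left₀ (norm_nonneg _) (norm_sum_le (range R) z) 2
      have h3 := sq_sum_le_card_mul_sum_sq (s := range R) (f := fun j => ‖z j‖)
      rw [card_range] at h3
      exact h2.trans h3
    have h2 : ∑ j ∈ range R, ‖z j‖ ^ 2 ≤
        (∑ j ∈ range R, max 0 (‖z j‖ ^ 2 - (V / R) ^ 2)) + R * (V / R) ^ 2 := by
      have h4 : (R : ℝ) * (V / R) ^ 2 = ∑ j ∈ range R, (V / R) ^ 2 := by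
        rw [sum_const, card_range, nsmul_eq_mul]
      rw [h4, ← sum_add_distrib]
      refine sum_le_sum fun j _ => ?_
      have := le_max_right 0 (‖z j‖ ^ 2 - (V / R) ^ 2)
      linarith
    have h3 := mul_le_mul_of_nonneg_left h2 hR0.le
    have h4 : (R : ℝ) * (R * (V / R) ^ 2) = V ^ 2 := by
      field_simp
    rw [mul_add, h4] at h3
    linarith

theorem QP_norm_sq (s : Finset ℕ) (q : ℕ → ℂ) (hs : ∀ n ∈ s, 1 ≤ n) (t : ℝ) :
    ‖QP s q t‖ ^ 2 ≤ s.card * ∑ n ∈ s, ‖q n‖ ^ 2 / n := by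
  have h1 : ‖QP s q t‖ ≤ ∑ n ∈ s, ‖q n * (n : ℂ) ^ (-(⟨1 / 2, t⟩ : ℂ))‖ := norm_sum_le _ _
  have h2 := pow_le_pow_left₀ (norm_nonneg _) h1 2
  have h3 := sq_sum_le_card_mul_sum_sq (s := s) (f := fun n => ‖q n * (n : ℂ) ^ (-(⟨1 / 2, t⟩ : ℂ))‖)
  refine h2.trans (h3.trans (le_of_eq ?_))
  congr 1
  refine sum_congr rfl fun n hn => ?_
  have hn1 := hs n hn
  have hn0 : (0 : ℝ) < n := by exact_mod_cast hn1
  have h4 := norm_aq q t hn1
  unfold aq at h4
  rw [← h4]
  field_simp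

open Classical in
theorem cut : ∃ C : ℝ, 1 ≤ C ∧ ∀ (q : ℕ → ℂ) (X I R : ℕ) (V H W S : ℝ), 1 ≤ X → 1 ≤ H → 0 < V → 1 ≤ S →
    R = ⌊Real.log X⌋₊ + 1 →
    ∑ n ∈ Icc 1 X, ‖q n‖ ^ 2 / n ≤ S → X * S < (2 ^ I * (V / R)) ^ 2 →
    ∫ t in W..(W + H), pp V ‖QP (Icc 1 X) q t‖ ≤
      R * (R * (C * (1 + Real.log X) ^ 2 * (I * (3 * S * X) + 2 * ((H + 3) * (27 * S ^ 3 * X) * R ^ 4 / V ^ 4)))) := by
  obtain ⟨C, hC, h⟩ := block
  refine ⟨C, hC, fun q X I R V H W S hX hH hV hS hR hq hI => ?_⟩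
  have hX1 : (1 : ℝ) ≤ X := by exact_mod_cast hX
  have hX0 : (0 : ℝ) < X := by linarith
  have hlX : 0 ≤ Real.log X := Real.log_nonneg hX1
  have hR1 : 1 ≤ R := by omega
  have hR0 : (0 : ℝ) < R := by exact_mod_cast hR1
  set s : ℕ → Finset ℕ := fun j => (Icc 1 X).filter (fun n => ⌊Real.log n⌋₊ = j) with hs
  have hs1 : ∀ j, ∀ n ∈ s j, 1 ≤ n := fun j n hn => (mem_Icc.mp (mem_filter.mp hn).1).1
  have hmaps : ∀ n ∈ Icc 1 X, ⌊Real.log n⌋₊ ∈ range R := by
    intro n hn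
    rw [mem_Icc] at hn
    rw [mem_range, hR]
    have hn0 : (0 : ℝ) < n := by exact_mod_cast hn.1
    have h1 : Real.log n ≤ Real.log X := Real.log_le_log hn0 (by exact_mod_cast hn.2)
    have := Nat.floor_le_floor h1
    omega
  have hsplit : ∀ t, QP (Icc 1 X) q t = ∑ j ∈ range R, QP (s j) q t := by
    intro t
    unfold QP
    rw [hs, sum_fiberwise_of_maps_to hmaps]
  have hcont : ∀ j, Continuous (fun t => pp (V / R) ‖QP (s j) q t‖) := fun j =>
    pp_cont _ (QP_cont (s j) q (hs1 j)).norm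
  have hcont0 : Continuous (fun t => pp V ‖QP (Icc 1 X) q t‖) :=
    pp_cont _ (QP_cont (Icc 1 X) q (fun n hn => (mem_Icc.mp hn).1)).norm
  have hblock : ∀ j ∈ range R, ∫ t in W..(W + H), pp (V / R) ‖QP (s j) q t‖ ≤
      C * (1 + Real.log X) ^ 2 * (I * (3 * S * X) + 2 * ((H + 3) * (27 * S ^ 3 * X) * R ^ 4 / V ^ 4)) := by
    intro j hj
    rw [mem_range, hR] at hj
    have hjX : (j : ℝ) ≤ Real.log X := by
      have h1 : (j : ℝ) ≤ ⌊Real.log X⌋₊ := by exact_mod_cast (by omega : j ≤ ⌊Real.log X⌋₊)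
      exact h1.trans (Nat.floor_le hlX)
    have hN1 : 1 ≤ Real.exp (j : ℝ) := Real.one_le_exp (Nat.cast_nonneg j)
    have hNX : Real.exp (j : ℝ) ≤ X := by
      calc Real.exp (j : ℝ) ≤ Real.exp (Real.log X) := Real.exp_le_exp.mpr hjX
        _ = X := Real.exp_log hX0
    have hlog : ∀ n ∈ s j, (j : ℝ) ≤ Real.log n ∧ Real.log n < j + 1 := by
      intro n hn
      have h1 := (mem_filter.mp hn).2
      have hn1 : (1 : ℝ) ≤ n := by exact_mod_cast hs1 j n hn
      have h2 := Nat.floor_le (Real.log_nonneg hn1)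
      have h3 := Nat.lt_floor_add_one (Real.log (n : ℝ))
      rw [h1] at h2 h3
      exact ⟨h2, h3⟩
    have hsub : ∑ n ∈ s j, ‖q n‖ ^ 2 / n ≤ S := by
      refine le_trans ?_ hq
      exact sum_le_sum_of_subset_of_nonneg (filter_subset _ _) fun n _ _ => by positivity
    have h1 := h (s j) q (Real.exp (j : ℝ)) I (V / R) H W hN1 (by
      intro n hn
      refine ⟨hs1 j n hn, ?_⟩
      rw [Real.log_exp]
      obtain ⟨h2, h3⟩ := hlog n hn
      rw [abs_le]
      constructor <;> linarith) hH (by positivity) (by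
      intro t
      have h2 := QP_norm_sq (s j) q (hs1 j) t
      have h3 : ((s j).card : ℝ) ≤ X := by
        have : (s j).card ≤ (Icc 1 X).card := card_le_card (filter_subset _ _)
        rw [Nat.card_Icc, Nat.add_sub_cancel] at this
        exact_mod_cast this
      have h4 : ((s j).card : ℝ) * ∑ n ∈ s j, ‖q n‖ ^ 2 / n ≤ X * S :=
        mul_le_mul h3 hsub (sum_nonneg fun n _ => by positivity) hX0.le
      exact lt_of_pow_lt_pow_left₀ 2 (by positivity) ((h2.trans h4).trans_lt hI))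
    rw [Real.log_exp] at h1
    set G := ∑ n ∈ s j, ‖q n‖ ^ 2 with hG
    have hG0 : 0 ≤ G := by rw [hG]; positivity
    have hGle : G ≤ 3 * S * Real.exp (j : ℝ) := by
      calc G ≤ ∑ n ∈ s j, (3 * Real.exp (j : ℝ)) * (‖q n‖ ^ 2 / n) := by
            rw [hG]
            refine sum_le_sum fun n hn => ?_
            have hn1 := hs1 j n hn
            have hn0 : (0 : ℝ) < n := by exact_mod_cast hn1
            have h2 : (n : ℝ) ≤ 3 * Real.exp (j : ℝ) := by
              calc (n : ℝ) = Real.exp (Real.log n) := (Real.exp_log hn0).symm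
                _ ≤ Real.exp (j + 1) := Real.exp_le_exp.mpr (hlog n hn).2.le
                _ = Real.exp 1 * Real.exp (j : ℝ) := by rw [Real.exp_add]; ring
                _ ≤ 3 * Real.exp (j : ℝ) := by
                  apply mul_le_mul_of_nonneg_right _ (Real.exp_pos _).le
                  linarith [Real.exp_one_lt_d9]
            rw [← mul_div_assoc, le_div_iff₀ hn0, mul_comm]
            exact mul_le_mul_of_nonneg_right h2 (by positivity)
        _ = 3 * Real.exp (j : ℝ) * ∑ n ∈ s j, ‖q n‖ ^ 2 / n := by rw [mul_sum]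
        _ ≤ 3 * Real.exp (j : ℝ) * S := mul_le_mul_of_nonneg_left hsub (by positivity)
        _ = _ := by ring
    refine h1.trans ?_
    have h5 : G ^ 3 / (Real.exp (j : ℝ) ^ 2 * (V / R) ^ 4) ≤ 27 * S ^ 3 * X * R ^ 4 / V ^ 4 := by
      have h6 : G ^ 3 ≤ (3 * S * Real.exp (j : ℝ)) ^ 3 := pow_le_pow_left₀ hG0 hGle 3
      have hE := Real.exp_pos (j : ℝ)
      calc G ^ 3 / (Real.exp (j : ℝ) ^ 2 * (V / R) ^ 4)
          ≤ (3 * S * Real.exp (j : ℝ)) ^ 3 / (Real.exp (j : ℝ) ^ 2 * (V / R) ^ 4) :=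
            div_le_div_of_nonneg_right h6 (by positivity)
        _ = 27 * S ^ 3 * Real.exp (j : ℝ) * R ^ 4 / V ^ 4 := by
            field_simp
            ring
        _ ≤ 27 * S ^ 3 * X * R ^ 4 / V ^ 4 := by
            gcongr
    have h7 : (1 + (j : ℝ)) ^ 2 ≤ (1 + Real.log X) ^ 2 :=
      pow_le_pow_left₀ (by positivity) (by linarith) 2
    have h8 : G ≤ 3 * S * X := hGle.trans (mul_le_mul_of_nonneg_left hNX (by positivity))
    apply mul_le_mul
    · exact mul_le_mul_of_nonneg_left h7 (by linarith)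
    · have h9 : (I : ℝ) * G ≤ I * (3 * S * X) := mul_le_mul_of_nonneg_left h8 (Nat.cast_nonneg _)
      have h10 : (H + 3) * G ^ 3 / (Real.exp (j : ℝ) ^ 2 * (V / R) ^ 4) ≤
          (H + 3) * (27 * S ^ 3 * X) * R ^ 4 / V ^ 4 := by
        have := mul_le_mul_of_nonneg_left h5 (by linarith : (0 : ℝ) ≤ H + 3)
        calc (H + 3) * G ^ 3 / (Real.exp (j : ℝ) ^ 2 * (V / R) ^ 4) =
            (H + 3) * (G ^ 3 / (Real.exp (j : ℝ) ^ 2 * (V / R) ^ 4)) := by ring
          _ ≤ (H + 3) * (27 * S ^ 3 * X * R ^ 4 / V ^ 4) := this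
          _ = _ := by ring
      linarith
    · positivity
    · positivity
  calc ∫ t in W..(W + H), pp V ‖QP (Icc 1 X) q t‖
      ≤ ∫ t in W..(W + H), R * ∑ j ∈ range R, pp (V / R) ‖QP (s j) q t‖ := by
        apply intervalIntegral.integral_mono_on (by linarith)
        · exact hcont0.intervalIntegrable _ _
        · apply Continuous.intervalIntegrable
          exact continuous_const.mul (continuous_finsetSum _ fun j _ => hcont j)
        · intro t _
          rw [hsplit t]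
          exact pp_sum V R hR1 _
    _ = R * ∑ j ∈ range R, ∫ t in W..(W + H), pp (V / R) ‖QP (s j) q t‖ := by
        rw [intervalIntegral.integral_const_mul, intervalIntegral.integral_finsetSum]
        intro j _
        exact (hcont j).intervalIntegrable _ _
    _ ≤ R * ∑ j ∈ range R, C * (1 + Real.log X) ^ 2 *
          (I * (3 * S * X) + 2 * ((H + 3) * (27 * S ^ 3 * X) * R ^ 4 / V ^ 4)) := by
        apply mul_le_mul_of_nonneg_left _ hR0.le
        exact sum_le_sum hblock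
    _ = _ := by
        rw [sum_const, card_range, nsmul_eq_mul]

/-- the eventual form -/
theorem cut_ev (x y θ S κ : ℝ) (hx : 0 < x) (hx1 : x ≤ 1) (hxy : x < y) (hxθ : x < θ)
    (hS : 1 ≤ S) (hκ : 0 < κ) :
    ∃ T0 : ℝ, ∀ T : ℝ, T0 ≤ T → ∀ (q : ℕ → ℂ) (X : ℕ) (W : ℝ), 1 ≤ X → (X : ℝ) ≤ T ^ x →
      ∑ n ∈ Icc 1 X, ‖q n‖ ^ 2 / n ≤ S →
      ∫ t in W..(W + T ^ θ), pp (T ^ (y / 4)) ‖QP (Icc 1 X) q t‖ ≤ κ * T ^ θ := by
  obtain ⟨C, hC, h⟩ := cut
  have hy : 0 < y := by linarith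
  have hθ : 0 < θ := by linarith
  have ev := (eventually_ge_atTop (Real.exp 100)).and
    ((Pool.Agent.W192.PP.ev_log 6 (θ - x) (by linarith)).and
    ((Pool.Agent.W192.PP.ev_log 9 (y - x) (by linarith)).and
    ((Pool.Agent.W192.PP.ev_log 3 1 one_pos).and
    ((Real.tendsto_log_atTop.eventually_ge_atTop (288 * C * S / κ)).and
    ((Real.tendsto_log_atTop.eventually_ge_atTop (110592 * C * S ^ 3 / κ)).and
    (Real.tendsto_log_atTop.eventually_ge_atTop (5 * S)))))))
  obtain ⟨T0, hT0⟩ := eventually_atTop.mp ev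
  refine ⟨T0, fun T hT q X W hX hXT hq => ?_⟩
  obtain ⟨e1, e2, e3, e4, e5, e6, e7⟩ := hT0 T hT
  have hTpos : 0 < T := (Real.exp_pos _).trans_le e1
  have hT1 : 1 ≤ T := by
    have := Real.add_one_le_exp (100 : ℝ)
    linarith
  have hL : 100 ≤ Real.log T := by
    rw [Real.le_log_iff_exp_le hTpos]
    exact e1
  set L := Real.log T with hLdef
  have hL0 : 0 < L := by linarith
  have hX1 : (1 : ℝ) ≤ X := by exact_mod_cast hX
  have hX0 : (0 : ℝ) < X := by linarith
  have hXT1 : (X : ℝ) ≤ T := hXT.trans (by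
    calc T ^ x ≤ T ^ (1 : ℝ) := Real.rpow_le_rpow_of_exponent_le hT1 hx1
      _ = T := Real.rpow_one T)
  have hlX : 0 ≤ Real.log X := Real.log_nonneg hX1
  have hlXL : Real.log X ≤ L := Real.log_le_log hX0 hXT1
  set R : ℕ := ⌊Real.log X⌋₊ + 1 with hR
  have hRL : (R : ℝ) ≤ 2 * L := by
    rw [hR]
    push_cast
    have := Nat.floor_le hlX
    linarith
  have hR0 : (0 : ℝ) < R := by rw [hR]; positivity
  set I : ℕ := ⌈2 * L⌉₊ with hI
  have hI1 : 2 * L ≤ I := Nat.le_ceil _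
  have hI2 : (I : ℝ) ≤ 3 * L := by
    have := Nat.ceil_lt_add_one (by linarith : 0 ≤ 2 * L)
    rw [← hI] at this
    linarith
  set V := T ^ (y / 4) with hV
  have hV1 : 1 ≤ V := Real.one_le_rpow hT1 (by linarith)
  have hV0 : 0 < V := by linarith
  have hV4 : V ^ 4 = T ^ y := by
    rw [hV, ← Real.rpow_natCast, ← Real.rpow_mul hTpos.le]
    congr 1
    push_cast
    ring
  have hH1 : 1 ≤ T ^ θ := Real.one_le_rpow hT1 hθ.le
  set H := T ^ θ with hH
  have hcond : X * S < (2 ^ I * (V / R)) ^ 2 := by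
    have h1 : T ≤ 2 ^ I := by
      have h2 : Real.exp L ≤ Real.exp (Real.log 2 * I) := by
        apply Real.exp_le_exp.mpr
        have := Real.log_two_gt_d9
        nlinarith
      rw [hLdef, Real.exp_log hTpos] at h2
      have h3 : Real.exp (Real.log 2 * I) = 2 ^ I := by
        rw [mul_comm, Real.exp_nat_mul, Real.exp_log (by norm_num)]
      rw [h3] at h2
      exact h2
    have h2 : T / (2 * L) ≤ 2 ^ I * (V / R) := by
      calc T / (2 * L) ≤ T / R := div_le_div_of_nonneg_left hTpos.le hR0 hRL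
        _ ≤ 2 ^ I * V / R := by
          apply div_le_div_of_nonneg_right _ hR0.le
          calc T = T * 1 := (mul_one T).symm
            _ ≤ 2 ^ I * V := mul_le_mul h1 hV1 zero_le_one (by positivity)
        _ = _ := by ring
    have h3 : (T / (2 * L)) ^ 2 ≤ (2 ^ I * (V / R)) ^ 2 := pow_le_pow_left₀ (by positivity) h2 2
    refine lt_of_lt_of_le ?_ h3
    rw [div_pow, lt_div_iff₀ (by positivity)]
    rw [Real.rpow_one] at e4
    have h4 : X * S * (2 * L) ^ 2 ≤ T * (4 * S * L ^ 2) := by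
      have : X * S * (2 * L) ^ 2 = X * (4 * S * L ^ 2) := by ring
      rw [this]
      exact mul_le_mul_of_nonneg_right hXT1 (by positivity)
    have h5 : 4 * S * L ^ 2 < T := by
      have h6 : 5 * S * L ^ 2 ≤ L ^ 3 := by
        have : L ^ 3 = L * L ^ 2 := by ring
        rw [this]
        exact mul_le_mul_of_nonneg_right e7 (by positivity)
      have h7 : 0 < S * L ^ 2 := by positivity
      linarith
    calc X * S * (2 * L) ^ 2 ≤ T * (4 * S * L ^ 2) := h4
      _ < T * T := mul_lt_mul_of_pos_left h5 hTpos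
      _ = T ^ 2 := by ring
  have hmain := h q X I R V H W S hX hH1 hV0 hS hR hq hcond
  refine hmain.trans ?_
  have hlX2 : 1 + Real.log X ≤ 2 * L := by linarith
  have hx0 : 0 < T ^ x := Real.rpow_pos_of_pos hTpos _
  have k1 : (I : ℝ) * (3 * S * X) ≤ 3 * L * (3 * S * T ^ x) := by
    apply mul_le_mul hI2 _ (by positivity) (by positivity)
    exact mul_le_mul_of_nonneg_left hXT (by positivity)
  have k2 : (H + 3) * (27 * S ^ 3 * X) * (R : ℝ) ^ 4 / V ^ 4 ≤
      (4 * H) * (27 * S ^ 3 * T ^ x) * (2 * L) ^ 4 / T ^ y := by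
    rw [hV4]
    apply div_le_div_of_nonneg_right _ (Real.rpow_nonneg hTpos.le _)
    apply mul_le_mul
    · apply mul_le_mul (by linarith) _ (by positivity) (by positivity)
      exact mul_le_mul_of_nonneg_left hXT (by positivity)
    · exact pow_le_pow_left₀ hR0.le hRL 4
    · positivity
    · positivity
  have k3 : C * (1 + Real.log X) ^ 2 ≤ C * (2 * L) ^ 2 := by
    apply mul_le_mul_of_nonneg_left _ (by linarith)
    exact pow_le_pow_left₀ (by linarith) hlX2 2
  have k4 : (R : ℝ) * (R * (C * (1 + Real.log X) ^ 2 * (I * (3 * S * X) +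
        2 * ((H + 3) * (27 * S ^ 3 * X) * R ^ 4 / V ^ 4)))) ≤
      (2 * L) * ((2 * L) * (C * (2 * L) ^ 2 * (3 * L * (3 * S * T ^ x) +
        2 * ((4 * H) * (27 * S ^ 3 * T ^ x) * (2 * L) ^ 4 / T ^ y)))) := by
    apply mul_le_mul hRL _ (by positivity) (by positivity)
    apply mul_le_mul hRL _ (by positivity) (by positivity)
    apply mul_le_mul k3 _ (by positivity) (by positivity)
    linarith
  refine k4.trans ?_
  have hTy : 0 < T ^ y := Real.rpow_pos_of_pos hTpos _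
  have e : (2 * L) * ((2 * L) * (C * (2 * L) ^ 2 * (3 * L * (3 * S * T ^ x) +
        2 * ((4 * H) * (27 * S ^ 3 * T ^ x) * (2 * L) ^ 4 / T ^ y)))) =
      144 * C * S / L * (L ^ 6 * T ^ x) + 55296 * C * S ^ 3 / L * (L ^ 9 * T ^ x / T ^ y) * H := by
    field_simp
    ring
  rw [e]
  have m1 : L ^ 6 * T ^ x ≤ H := by
    calc L ^ 6 * T ^ x ≤ T ^ (θ - x) * T ^ x := mul_le_mul_of_nonneg_right e2 hx0.le
      _ = H := by rw [← Real.rpow_add hTpos, hH]; congr 1; ring
  have m2 : L ^ 9 * T ^ x / T ^ y ≤ 1 := by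
    rw [div_le_one hTy]
    calc L ^ 9 * T ^ x ≤ T ^ (y - x) * T ^ x := mul_le_mul_of_nonneg_right e3 hx0.le
      _ = T ^ y := by rw [← Real.rpow_add hTpos]; congr 1; ring
  have m3 : 144 * C * S / L ≤ κ / 2 := by
    rw [div_le_iff₀ hκ] at e5
    rw [div_le_iff₀ hL0]
    linarith
  have m4 : 55296 * C * S ^ 3 / L ≤ κ / 2 := by
    rw [div_le_iff₀ hκ] at e6
    rw [div_le_iff₀ hL0]
    linarith
  have hH0 : 0 ≤ H := by linarith
  have m5 : 144 * C * S / L * (L ^ 6 * T ^ x) ≤ κ / 2 * H :=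
    mul_le_mul m3 m1 (by positivity) (by positivity)
  have m6 : 55296 * C * S ^ 3 / L * (L ^ 9 * T ^ x / T ^ y) ≤ κ / 2 * 1 :=
    mul_le_mul m4 m2 (by positivity) (by positivity)
  have m7 := mul_le_mul_of_nonneg_right m6 hH0
  linarith

end Pool.Agent.Z72.MG
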