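import Pool.Agent.Z72.MG.Bad
import Pool.Agent.W192.PP.Fin2

/-!
# Many small gaps in short intervals, for every constant above one half
-/

open Complex Filter Topology Set MeasureTheory

namespace Pool.Agent.Z72.MG

open SG (phi hh dl ord)
open Pool.Agent.W192.PP (BadZ glue gaps_finite)

theorem window3 (c x y θ : ℝ) (hc : 0 < c) (hc1 : c < 1) (hx : 0 < x) (hxθ : x < θ) (hθ1 : θ < 1)
    (hxc : 1 < c * (1 + x)) (hxy : x < y) :
    ∃ T0 : ℝ, ∀ T : ℝ, T0 ≤ T → ∀ W : ℝ, T ≤ W → W + T ^ θ ≤ 2 * T →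
      T ^ (θ - y / 2) / 2 ≤
        ({n : ℕ | 1 ≤ n ∧ W ≤ SG.ord n ∧ SG.ord (n + 1) ≤ W + T ^ θ ∧
        SG.ord (n + 1) - SG.ord n ≤ dl c T}.ncard : ℝ) := by
  classical
  obtain ⟨T0, hm⟩ := many_bad3 c x y θ hc hc1 hx hxθ hθ1 hxc hxy
  refine ⟨max T0 (Real.exp 100), fun T hT W hW1 hW2 => ?_⟩
  obtain ⟨S, hS1, hS2, hS3⟩ := hm T ((le_max_left _ _).trans hT) W hW1 hW2
  have hTe : Real.exp 100 ≤ T := (le_max_right _ _).trans hT
  have hTpos : 0 < T := (Real.exp_pos _).trans_le hTe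
  have hT10 : 10 ≤ T := by
    have := Real.add_one_le_exp (100 : ℝ)
    linarith
  have hL : 100 ≤ Real.log T := by
    rw [Real.le_log_iff_exp_le hTpos]
    exact hTe
  have hdl0 : 0 < dl c T := by
    unfold dl
    have := Real.pi_pos
    positivity
  have hH0 : 0 < T ^ θ := Real.rpow_pos_of_pos hTpos _
  have hcnt := Pool.Agent.W191.PP.t_cnt (dl c T) W (W + T ^ θ) hdl0 (by linarith)
    (by linarith)
    (S.toFinset.image (fun z => z + hh (dl c T))) (by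
      intro s hs
      rw [Finset.mem_image] at hs
      obtain ⟨z, hz, rfl⟩ := hs
      obtain ⟨h1, h2, h3, h4, h5, h6⟩ := hS1 z (Multiset.mem_toFinset.mp hz)
      exact ⟨h5, h3, h4, h1, h2, h6⟩)
  rw [Finset.sum_image (by
    intro a _ b _ hab
    exact add_right_cancel hab)] at hcnt
  have hcard : Multiset.card S ≤ ∑ z ∈ S.toFinset, SG.zmult (z + hh (dl c T)) := by
    rw [← Multiset.toFinset_sum_count_eq S]
    exact Finset.sum_le_sum fun z _ => hS2 z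
  have h1 : (Multiset.card S : ℝ) ≤ 2 * ({n : ℕ | 1 ≤ n ∧ W ≤ SG.ord n ∧
      SG.ord (n + 1) ≤ W + T ^ θ ∧
      SG.ord (n + 1) - SG.ord n ≤ dl c T}.ncard : ℝ) := by
    exact_mod_cast hcard.trans hcnt
  linarith

/-- **many small gaps** -/
theorem many (c ε : ℝ) (hc : 1 / 2 < c) (hc1 : c < 1) (hε : 0 < ε) :
    ∃ T0 : ℝ, ∀ T t0 H : ℝ, T0 ≤ T → T ≤ t0 → t0 + H ≤ 2 * T → T ^ (1 / c - 1 + ε) ≤ H →
      H * T ^ (-((1 / c - 1) / 2) - ε) ≤ ({n : ℕ | 1 ≤ n ∧ t0 ≤ ord n ∧ ord (n + 1) ≤ t0 + H ∧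
        ord (n + 1) - ord n < c * (2 * Real.pi / Real.log T)}.ncard : ℝ) := by
  have hpi := Real.pi_pos
  have hc0 : 0 < c := by linarith
  obtain ⟨ξ, hξ⟩ : ∃ ξ, ξ = 1 / c - 1 := ⟨_, rfl⟩
  have hcξ : c * (1 + ξ) = 1 := by
    rw [hξ]
    field_simp
    ring
  have hξ0 : 0 < ξ := by
    by_contra hcon
    nlinarith
  have hξ1 : ξ < 1 := by
    by_contra hcon
    nlinarith
  rw [← hξ]
  obtain ⟨ρ, hρ0, hρε, hρξ⟩ : ∃ ρ : ℝ, 0 < ρ ∧ ρ ≤ ε ∧ ρ ≤ 1 - ξ :=
    ⟨min ε (1 - ξ), lt_min hε (by linarith), min_le_left _ _, min_le_right _ _⟩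
  obtain ⟨x, hx⟩ : ∃ x, x = ξ + ρ / 8 := ⟨_, rfl⟩
  obtain ⟨y, hy⟩ : ∃ y, y = ξ + ρ / 4 := ⟨_, rfl⟩
  obtain ⟨θ, hθ⟩ : ∃ θ, θ = ξ + ρ / 2 := ⟨_, rfl⟩
  obtain ⟨c1, hc1'⟩ : ∃ c1, c1 = c / (1 + c * ρ / 16) := ⟨_, rfl⟩
  have hden : 1 < 1 + c * ρ / 16 := by
    have : 0 < c * ρ := mul_pos hc0 hρ0
    linarith
  have hc1c : c1 < c := by
    rw [hc1', div_lt_iff₀ (by linarith)]
    nlinarith
  have hc10 : 0 < c1 := by
    rw [hc1']
    positivity
  have hcx : 1 < c1 * (1 + x) := by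
    rw [hc1', div_mul_eq_mul_div, lt_div_iff₀ (by linarith), one_mul]
    have e : c * (1 + x) = c * (1 + ξ) + c * ρ / 8 := by rw [hx]; ring
    rw [e, hcξ]
    have : 0 < c * ρ := mul_pos hc0 hρ0
    linarith
  obtain ⟨T1, hwin⟩ := window3 c1 x y θ hc10 (by linarith) (by linarith) (by linarith) (by linarith) hcx
    (by linarith)
  have ev : ∀ᶠ T : ℝ in atTop, 4 * T ^ θ ≤ T ^ (ξ + ε) := by
    have hlim : Tendsto (fun T : ℝ => T ^ (ξ + ε - θ)) atTop atTop :=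
      tendsto_rpow_atTop (by linarith)
    filter_upwards [hlim.eventually_ge_atTop 4, eventually_gt_atTop 0] with T h1 h2
    calc 4 * T ^ θ ≤ T ^ (ξ + ε - θ) * T ^ θ :=
          mul_le_mul_of_nonneg_right h1 (Real.rpow_nonneg h2.le _)
      _ = T ^ (ξ + ε) := by
          rw [← Real.rpow_add h2]
          congr 1
          ring
  have ev2 : ∀ᶠ T : ℝ in atTop, 8 * T ^ (-(ξ / 2) - ε) ≤ T ^ (-(y / 2)) := by
    have hlim : Tendsto (fun T : ℝ => T ^ (-(y / 2) - (-(ξ / 2) - ε))) atTop atTop :=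
      tendsto_rpow_atTop (by linarith)
    filter_upwards [hlim.eventually_ge_atTop 8, eventually_gt_atTop 0] with T h1 h2
    calc 8 * T ^ (-(ξ / 2) - ε) ≤ T ^ (-(y / 2) - (-(ξ / 2) - ε)) * T ^ (-(ξ / 2) - ε) :=
          mul_le_mul_of_nonneg_right h1 (Real.rpow_nonneg h2.le _)
      _ = T ^ (-(y / 2)) := by
          rw [← Real.rpow_add h2]
          congr 1
          ring
  obtain ⟨T2, hT2⟩ := eventually_atTop.mp (ev.and ev2)
  refine ⟨max (max T1 T2) 10, ?_⟩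
  intro T t0 H hT ht0 ht1 hH
  have hTa : T1 ≤ T := (le_max_left _ _).trans ((le_max_left _ _).trans hT)
  have hTb : T2 ≤ T := (le_max_right _ _).trans ((le_max_left _ _).trans hT)
  have hT10 : 10 ≤ T := (le_max_right _ _).trans hT
  have hTpos : 0 < T := by linarith
  have hL : 0 < Real.log T := Real.log_pos (by linarith)
  obtain ⟨v1, v2⟩ := hT2 T hTb
  set h := T ^ θ with hh
  have hh0 : 0 < h := Real.rpow_pos_of_pos hTpos _
  have h4h : 4 * h ≤ H := v1.trans hH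
  set M : ℕ := ⌊H / (2 * h)⌋₊ with hM
  have hHpos : 0 < H := by linarith
  have hM1 : (M : ℝ) ≤ H / (2 * h) := Nat.floor_le (by positivity)
  have hM2 : H / (2 * h) < M + 1 := Nat.lt_floor_add_one _
  have hM3 : 2 ≤ H / (2 * h) := by
    rw [le_div_iff₀ (by positivity)]
    linarith
  have hM4 : H / (4 * h) ≤ M := by
    have : H / (2 * h) = 2 * (H / (4 * h)) := by
      field_simp
      ring
    rw [this] at hM2 hM3
    linarith
  have hg := glue (fun n => ord (n + 1) - ord n < c * (2 * Real.pi / Real.log T)) t0 h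
    (t0 + H) hh0 M
    (T ^ (θ - y / 2) / 2) (by
      have : 2 * (M : ℝ) * h ≤ H := by
        rw [le_div_iff₀ (by positivity)] at hM1
        linarith
      linarith) (by
      intro i hi
      have hi' : (i : ℝ) + 1 ≤ M := by exact_mod_cast hi
      have hi0 : (0 : ℝ) ≤ i := by positivity
      have hMh : 2 * (M : ℝ) * h ≤ H := by
        rw [le_div_iff₀ (by positivity)] at hM1
        linarith
      have hb : 0 ≤ 2 * (i : ℝ) * h := by positivity
      have h3 : 2 * (i : ℝ) * h + h ≤ H := by nlinarith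
      have := hwin T hTa (t0 + 2 * i * h) (by linarith) (by linarith)
      refine this.trans ?_
      have hsub : {n : ℕ | 1 ≤ n ∧ t0 + 2 * i * h ≤ ord n ∧ ord (n + 1) ≤ t0 + 2 * i * h + h ∧
          ord (n + 1) - ord n ≤ dl c1 T} ⊆ {n : ℕ | 1 ≤ n ∧ t0 + 2 * i * h ≤ ord n ∧
          ord (n + 1) ≤ t0 + 2 * i * h + h ∧
          ord (n + 1) - ord n < c * (2 * Real.pi / Real.log T)} := by
        rintro n ⟨k1, k2, k3, k4⟩
        refine ⟨k1, k2, k3, k4.trans_lt ?_⟩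
        have e : dl c1 T = c1 * (2 * Real.pi / Real.log T) := by
          unfold dl
          ring
        rw [e]
        exact mul_lt_mul_of_pos_right hc1c (by positivity)
      have hfin : {n : ℕ | 1 ≤ n ∧ t0 + 2 * i * h ≤ ord n ∧
          ord (n + 1) ≤ t0 + 2 * i * h + h ∧
          ord (n + 1) - ord n < c * (2 * Real.pi / Real.log T)}.Finite := by
        refine (gaps_finite (fun _ => True) (t0 + 2 * i * h + h)).subset ?_
        rintro n ⟨k1, _, k3, _⟩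
        exact ⟨k1, trivial, k3⟩
      exact_mod_cast Set.ncard_le_ncard hsub hfin)
  refine le_trans ?_ hg
  calc H * T ^ (-(ξ / 2) - ε) = H / 8 * (8 * T ^ (-(ξ / 2) - ε)) := by ring
    _ ≤ H / 8 * T ^ (-(y / 2)) := mul_le_mul_of_nonneg_left v2 (by positivity)
    _ = H / (4 * h) * (T ^ (θ - y / 2) / 2) := by
        have e2 : T ^ (θ - y / 2) = h * T ^ (-(y / 2)) := by
          rw [hh, ← Real.rpow_add hTpos]
          congr 1
        rw [e2]
        field_simp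
        ring
    _ ≤ M * (T ^ (θ - y / 2) / 2) := mul_le_mul_of_nonneg_right hM4 (by positivity)

end Pool.Agent.Z72.MG
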