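import Pool.Agent.Q209.KS.Hu
import Pool.Agent.Q209.KS.Ker
import Pool.Agent.Q14.KS.Smo
import Pool.Agent.W192.PP.MV

/-!
# The part of the mean square of a Dirichlet polynomial above a given level

Huxley's large value theorem (`Pool.Agent.Q209.KS.hu`) in an integrated form: the integral of
`max 0 (|Q(1/2 + it)|² - V²)` over an interval of length `H`, `Q` a Dirichlet polynomial of length `N`, is at most
`N + H N / V⁴` up to logarithms.
-/

set_option autoImplicit false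

namespace Pool.Agent.Z72.MG

open Finset Pool.Agent.Q240.KS
open Pool.Agent.H376R2.MR (ch FK)

theorem hu_all : S_HU := Pool.Agent.Q209.KS.hu Pool.Agent.Q209.KS.hmg
  (Pool.Agent.Q209.KS.ker Pool.Agent.Q14.KS.smo)

/-- the positive part -/
noncomputable def pp (V x : ℝ) : ℝ := max 0 (x ^ 2 - V ^ 2)

theorem pp_nonneg (V x : ℝ) : 0 ≤ pp V x := le_max_left _ _

open Classical in
/-- the levels -/
theorem pp_le_levels {V x : ℝ} (hV : 0 < V) (hx : 0 ≤ x) {I : ℕ} (hI : x < 2 ^ I * V) :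
    pp V x ≤ ∑ i ∈ range I, if (2 : ℝ) ^ i * V ≤ x then 4 * ((2 : ℝ) ^ i * V) ^ 2 else 0 := by
  have hnn : ∀ i ∈ range I, (0 : ℝ) ≤ if (2 : ℝ) ^ i * V ≤ x then 4 * ((2 : ℝ) ^ i * V) ^ 2 else 0 := by
    intro i _
    split_ifs <;> positivity
  rcases lt_or_ge x V with h | h
  · have h1 : pp V x = 0 := by
      unfold pp
      apply max_eq_left
      nlinarith
    rw [h1]
    exact sum_nonneg hnn
  · -- the last level
    have hex : ∃ j, x < 2 ^ j * V := ⟨I, hI⟩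
    set j := Nat.find hex with hj
    have h1 : x < 2 ^ j * V := Nat.find_spec hex
    have hj0 : j ≠ 0 := by
      intro h0
      rw [h0] at h1
      simp at h1
      linarith
    obtain ⟨i, hi⟩ := Nat.exists_eq_succ_of_ne_zero hj0
    have h2 : ¬ x < 2 ^ i * V := Nat.find_min hex (by rw [← hj, hi]; exact Nat.lt_succ_self i)
    rw [not_lt] at h2
    have hiI : i ∈ range I := by
      rw [mem_range]
      have : j ≤ I := Nat.find_min' hex hI
      omega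
    have h3 := single_le_sum hnn hiI
    rw [if_pos h2] at h3
    refine le_trans ?_ h3
    unfold pp
    apply max_le (by positivity)
    rw [hi, Nat.succ_eq_add_one, pow_succ] at h1
    nlinarith [sq_nonneg V, mul_pos (pow_pos (two_pos : (0:ℝ) < 2) i) hV]

/-- the discrete form -/
theorem disc : ∃ C : ℝ, 1 ≤ C ∧ ∀ (s : Finset ℕ) (a : ℕ → ℂ) (N : ℝ) (K I : ℕ) (V : ℝ), 1 ≤ N →
    (∀ n ∈ s, 1 ≤ n ∧ |Real.log n - Real.log N| ≤ 2) → 1 ≤ K → 0 < V →
    (∀ k ∈ FK K, ‖Pool.Agent.H376R2.MR.DP s a k‖ < 2 ^ I * V) →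
    ∑ k ∈ FK K, pp V ‖Pool.Agent.H376R2.MR.DP s a k‖ ≤ C * (1 + Real.log N) ^ 2 *
      (I * (∑ n ∈ s, (n : ℝ) * ‖a n‖ ^ 2) + 2 * (K * (∑ n ∈ s, (n : ℝ) * ‖a n‖ ^ 2) ^ 3 / (N ^ 2 * V ^ 4))) := by
  classical
  obtain ⟨C, hC, h⟩ := hu_all
  refine ⟨4 * C, by linarith, fun s a N K I V hN hs hK hV hI => ?_⟩
  set G := ∑ n ∈ s, (n : ℝ) * ‖a n‖ ^ 2 with hG
  have hG0 : 0 ≤ G := by rw [hG]; positivity
  set ell := (1 + Real.log N) ^ 2 with hell
  have hell0 : 0 ≤ ell := by rw [hell]; positivity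
  have hN0 : 0 < N := by linarith
  set x : ℤ → ℝ := fun k => ‖Pool.Agent.H376R2.MR.DP s a k‖ with hx
  have hlev : ∀ i ∈ range I, ∑ k ∈ FK K, (if (2 : ℝ) ^ i * V ≤ x k then 4 * ((2 : ℝ) ^ i * V) ^ 2 else 0) ≤
      4 * C * ell * (G + K * G ^ 3 / (N ^ 2 * V ^ 4) * (1 / 2) ^ i) := by
    intro i _
    have h2i : (0 : ℝ) < 2 ^ i := by positivity
    have h1 := h s a N K ((2 : ℝ) ^ i * V) ((FK K).filter (fun k => (2 : ℝ) ^ i * V ≤ x k)) hN hs hK
      (by positivity) (fun k hk => mem_filter.mp hk)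
    rw [← hG, ← hell] at h1
    rw [← sum_filter, sum_const, nsmul_eq_mul]
    have h3 := mul_le_mul_of_nonneg_right h1 (by positivity : 0 ≤ 4 * ((2 : ℝ) ^ i * V) ^ 2)
    refine h3.trans ?_
    have e : C * ell * (G / ((2 : ℝ) ^ i * V) ^ 2 + K * G ^ 3 / (N ^ 2 * ((2 : ℝ) ^ i * V) ^ 6)) *
        (4 * ((2 : ℝ) ^ i * V) ^ 2) = 4 * C * ell * (G + K * G ^ 3 / (N ^ 2 * V ^ 4) * (1 / ((2 : ℝ) ^ i) ^ 4)) := by
      field_simp
    rw [e]
    apply mul_le_mul_of_nonneg_left _ (by positivity)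
    have h4 : 1 / ((2 : ℝ) ^ i) ^ 4 ≤ (1 / 2) ^ i := by
      rw [one_div_pow]
      apply one_div_le_one_div_of_le h2i
      have : (1 : ℝ) ≤ 2 ^ i := one_le_pow₀ (by norm_num)
      calc (2 : ℝ) ^ i = (2 ^ i) ^ 1 := (pow_one _).symm
        _ ≤ (2 ^ i) ^ 4 := pow_le_pow_right₀ this (by norm_num)
    have h5 : 0 ≤ K * G ^ 3 / (N ^ 2 * V ^ 4) := by positivity
    have := mul_le_mul_of_nonneg_left h4 h5
    linarith
  calc ∑ k ∈ FK K, pp V (x k) ≤ ∑ k ∈ FK K, ∑ i ∈ range I,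
        (if (2 : ℝ) ^ i * V ≤ x k then 4 * ((2 : ℝ) ^ i * V) ^ 2 else 0) :=
        sum_le_sum fun k hk => pp_le_levels hV (norm_nonneg _) (hI k hk)
    _ = ∑ i ∈ range I, ∑ k ∈ FK K, (if (2 : ℝ) ^ i * V ≤ x k then 4 * ((2 : ℝ) ^ i * V) ^ 2 else 0) :=
        sum_comm
    _ ≤ ∑ i ∈ range I, 4 * C * ell * (G + K * G ^ 3 / (N ^ 2 * V ^ 4) * (1 / 2) ^ i) := sum_le_sum hlev
    _ = 4 * C * ell * (I * G + K * G ^ 3 / (N ^ 2 * V ^ 4) * ∑ i ∈ range I, (1 / 2 : ℝ) ^ i) := by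
        rw [← mul_sum, sum_add_distrib, sum_const, card_range, nsmul_eq_mul, ← mul_sum]
    _ ≤ 4 * C * ell * (I * G + 2 * (K * G ^ 3 / (N ^ 2 * V ^ 4))) := by
        apply mul_le_mul_of_nonneg_left _ (by positivity)
        have h5 : 0 ≤ K * G ^ 3 / (N ^ 2 * V ^ 4) := by positivity
        have h6 : ∑ i ∈ range I, (1 / 2 : ℝ) ^ i ≤ 2 := by
          have := sum_geometric_two_le I
          exact this
        have := mul_le_mul_of_nonneg_left h6 h5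
        linarith

end Pool.Agent.Z72.MG
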